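import Pool.Agent.Helper69.EI.Periodic
import Pool.Agent.Helper69.EL.Main
import Pool.Graph.R_pool_sql_team_seeded_1e53cb71.Helper6K9.EG.Gen2

set_option autoImplicit false

/-!
# Two-dimensional subtori: the reduction
-/

namespace Pool.Agent.Helper69.ET

open Set Filter Topology Pool.Agent.Helper69.EI
open scoped ContDiff

variable {V : Type*} [NormedAddCommGroup V] [InnerProductSpace ℝ V]

/-- the plane spanned by the first two basis vectors -/
def plane {m : ℕ} (β : Module.Basis (Fin (m + 2)) ℝ V) : Submodule ℝ V :=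
  Submodule.span ℝ {β 0, β 1}

/-- the normal derivatives of `F` vanish on the plane -/
def Tang {m : ℕ} (β : Module.Basis (Fin (m + 2)) ℝ V) (z₀ : V) (F : V × ℝ → ℝ) : Prop :=
  ∀ (q : V) (t : ℝ), q - z₀ ∈ plane β → ∀ u ∈ (plane β)ᗮ, fderiv ℝ (fun q => F (q, t)) q u = 0

/-- the coordinates of the orthogonal projection -/
theorem exists_R {m : ℕ} (β : Module.Basis (Fin (m + 2)) ℝ V) :
    ∃ R : V →L[ℝ] (Fin 2 → ℝ), R (β 0) = Pi.single 0 1 ∧ R (β 1) = Pi.single 1 1 ∧
      (∀ u ∈ (plane β)ᗮ, R u = 0) ∧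
      (∀ u, u - (R u 0 • β 0 + R u 1 • β 1) ∈ (plane β)ᗮ) := by
  have : FiniteDimensional ℝ V := Module.Finite.of_basis β
  have : CompleteSpace V := FiniteDimensional.complete ℝ V
  have h01 : (0 : Fin (m + 2)) ≠ 1 := by
    intro h
    have := congrArg Fin.val h
    simp at this
  have c00 : β.coord 0 (β 0) = 1 := by simp
  have c01 : β.coord 0 (β 1) = 0 := by simp [Module.Basis.coord_apply]
  have c10 : β.coord 1 (β 0) = 0 := by simp [Module.Basis.coord_apply]
  have c11 : β.coord 1 (β 1) = 1 := by simp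
  have hm0 : β 0 ∈ plane β := Submodule.subset_span (by simp)
  have hm1 : β 1 ∈ plane β := Submodule.subset_span (by simp)
  have hP : ∀ w ∈ plane β, β.coord 0 w • β 0 + β.coord 1 w • β 1 = w := by
    intro w hw
    obtain ⟨a, b, rfl⟩ := Submodule.mem_span_pair.1 hw
    simp only [map_add, map_smul, c00, c01, c10, c11, smul_eq_mul, mul_one, mul_zero, add_zero,
      zero_add]
  refine ⟨(ContinuousLinearMap.pi fun i : Fin 2 =>
    (LinearMap.toContinuousLinearMap (β.coord (![0, 1] i))).comp (plane β).starProjection),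
    ?_, ?_, ?_, ?_⟩
  · have e : (plane β).starProjection (β 0) = β 0 :=
      Submodule.starProjection_eq_self_iff.2 hm0
    funext i
    fin_cases i <;> simp [e, c00, c10]
  · have e : (plane β).starProjection (β 1) = β 1 :=
      Submodule.starProjection_eq_self_iff.2 hm1
    funext i
    fin_cases i <;> simp [e, c01, c11]
  · intro u hu
    have e : (plane β).starProjection u = 0 :=
      ((plane β).starProjection_apply_eq_zero_iff).2 hu
    funext i
    simp [e]
  · intro u
    have e := hP _ (Submodule.starProjection_apply_mem (plane β) u)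
    have e2 : u - (plane β).starProjection u ∈ (plane β)ᗮ :=
      Submodule.sub_starProjection_mem_orthogonal u
    rw [← e] at e2
    exact e2

/-- the embedding of the plane -/
noncomputable def io {m : ℕ} (β : Module.Basis (Fin (m + 2)) ℝ V) : (Fin 2 → ℝ) →L[ℝ] V :=
  (ContinuousLinearMap.proj (R := ℝ) (φ := fun _ : Fin 2 => ℝ) 0).smulRight (β 0) +
    (ContinuousLinearMap.proj (R := ℝ) (φ := fun _ : Fin 2 => ℝ) 1).smulRight (β 1)

theorem io_apply {m : ℕ} (β : Module.Basis (Fin (m + 2)) ℝ V) (x : Fin 2 → ℝ) :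
    io β x = x 0 • β 0 + x 1 • β 1 := by
  simp [io]

theorem io_mem {m : ℕ} (β : Module.Basis (Fin (m + 2)) ℝ V) (x : Fin 2 → ℝ) :
    io β x ∈ plane β := by
  rw [io_apply]
  exact Submodule.mem_span_pair.2 ⟨_, _, rfl⟩

/-- the coordinate functions of the projection -/
noncomputable def ph (i : ℕ) (s : ℝ) : ℝ :=
  if i < 2 then s else Real.sin (2 * Real.pi * s) / (2 * Real.pi)

theorem ph_smooth (i : ℕ) : ContDiff ℝ ∞ (ph i) := by
  unfold ph
  split_ifs
  · exact contDiff_id
  · exact (Real.contDiff_sin.comp (contDiff_const.mul contDiff_id)).div_const _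

theorem ph_zero (i : ℕ) : ph i 0 = 0 := by
  unfold ph
  split_ifs <;> simp

theorem ph_deriv (i : ℕ) (s : ℝ) (h : i < 2 ∨ s = 0) : HasDerivAt (ph i) 1 s := by
  unfold ph
  split_ifs with h1
  · exact hasDerivAt_id s
  · rcases h with h | rfl
    · exact absurd h h1
    have h2 : HasDerivAt (fun s : ℝ => 2 * Real.pi * s) (2 * Real.pi) 0 := by
      simpa using (hasDerivAt_id (0 : ℝ)).const_mul (2 * Real.pi)
    have h3 := (h2.sin).div_const (2 * Real.pi)
    have hpi : (2 * Real.pi) ≠ 0 := by positivity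
    have h4 : Real.cos (2 * Real.pi * 0) * (2 * Real.pi) / (2 * Real.pi) = 1 := by
      rw [mul_zero, Real.cos_zero, one_mul, div_self hpi]
    rw [h4] at h3
    exact h3

/-- the smooth projection of the torus to the subtorus -/
noncomputable def Pj {m : ℕ} (β : Module.Basis (Fin (m + 2)) ℝ V) (z₀ : V)
    (R : V →L[ℝ] (Fin 2 → ℝ)) (q : V) : Fin 2 → ℝ :=
  ∑ i : Fin (m + 2), ph i (β.coord i (q - z₀)) • R (β i)

theorem coord_cont {m : ℕ} (β : Module.Basis (Fin (m + 2)) ℝ V) (i : Fin (m + 2)) :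
    ∃ ℓ : V →L[ℝ] ℝ, ∀ v, ℓ v = β.coord i v := by
  have : FiniteDimensional ℝ V := Module.Finite.of_basis β
  exact ⟨LinearMap.toContinuousLinearMap (β.coord i), fun v => rfl⟩

theorem Pj_smooth {m : ℕ} (β : Module.Basis (Fin (m + 2)) ℝ V) (z₀ : V)
    (R : V →L[ℝ] (Fin 2 → ℝ)) : ContDiff ℝ ∞ (Pj β z₀ R) := by
  unfold Pj
  refine ContDiff.sum fun i _ => ?_
  obtain ⟨ℓ, hℓ⟩ := coord_cont β i
  simp only [← hℓ]
  exact ((ph_smooth i).comp (ℓ.contDiff.comp (contDiff_id.sub contDiff_const))).smul contDiff_const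

theorem coord_plane {m : ℕ} (β : Module.Basis (Fin (m + 2)) ℝ V) (i : Fin (m + 2)) (v : V)
    (hv : v ∈ plane β) : (i : ℕ) < 2 ∨ β.coord i v = 0 := by
  by_cases h : (i : ℕ) < 2
  · exact Or.inl h
  right
  obtain ⟨a, b, rfl⟩ := Submodule.mem_span_pair.1 hv
  have h0 : (0 : Fin (m + 2)) ≠ i := by
    rintro rfl
    simp at h
  have h1 : (1 : Fin (m + 2)) ≠ i := by
    rintro rfl
    simp at h
  have e0 : β.coord i (β 0) = 0 := by
    rw [Module.Basis.coord_apply, Module.Basis.repr_self, Finsupp.single_apply, if_neg h0]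
  have e1 : β.coord i (β 1) = 0 := by
    rw [Module.Basis.coord_apply, Module.Basis.repr_self, Finsupp.single_apply, if_neg h1]
  rw [map_add, map_smul, map_smul, e0, e1]
  simp

theorem Pj_deriv {m : ℕ} (β : Module.Basis (Fin (m + 2)) ℝ V) (z₀ : V)
    (R : V →L[ℝ] (Fin 2 → ℝ)) (q : V) (hq : q - z₀ ∈ plane β) : HasFDerivAt (Pj β z₀ R) R q := by
  have h1 : ∀ i : Fin (m + 2), ∃ ℓ : V →L[ℝ] ℝ, (∀ v, ℓ v = β.coord i v) ∧
      HasFDerivAt (fun q => ph i (β.coord i (q - z₀)) • R (β i)) (ℓ.smulRight (R (β i))) q := by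
    intro i
    obtain ⟨ℓ, hℓ⟩ := coord_cont β i
    refine ⟨ℓ, hℓ, ?_⟩
    have h2 : HasFDerivAt (fun q => β.coord i (q - z₀)) ℓ q := by
      simp only [← hℓ]
      exact (ℓ.hasFDerivAt (x := q - z₀)).comp q ((hasFDerivAt_id q).sub_const z₀)
    have h3 := (ph_deriv i (β.coord i (q - z₀)) (coord_plane β i _ hq)).comp_hasFDerivAt q h2
    have h4 := h3.smul_const (R (β i))
    rw [one_smul] at h4
    exact h4
  choose ℓ hℓ hd using h1
  have h5 := HasFDerivAt.fun_sum (u := Finset.univ) fun i (_ : i ∈ Finset.univ) => hd i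
  refine h5.congr_fderiv ?_
  ext1 u
  rw [sum_apply]
  conv_rhs => rw [← β.sum_repr u, map_sum]
  refine Finset.sum_congr rfl fun i _ => ?_
  rw [ContinuousLinearMap.smulRight_apply, hℓ, map_smul, Module.Basis.coord_apply]

theorem Pj_plane {m : ℕ} (β : Module.Basis (Fin (m + 2)) ℝ V) (z₀ : V)
    (R : V →L[ℝ] (Fin 2 → ℝ)) (q : V) (hq : q - z₀ ∈ plane β) : Pj β z₀ R q = R (q - z₀) := by
  unfold Pj
  conv_rhs => rw [← β.sum_repr (q - z₀), map_sum]
  refine Finset.sum_congr rfl fun i _ => ?_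
  rw [map_smul]
  congr 1
  rw [Module.Basis.coord_apply]
  rcases coord_plane β i _ hq with h | h
  · unfold ph
    rw [if_pos h]
  · rw [Module.Basis.coord_apply] at h
    rw [h, ph_zero]

/-- the projection is equivariant -/
theorem Pj_per {m : ℕ} (β : Module.Basis (Fin (m + 2)) ℝ V) (z₀ : V)
    (R : V →L[ℝ] (Fin 2 → ℝ)) (j : Fin (m + 2)) (q : V) :
    Pj β z₀ R (q + β j) = Pj β z₀ R q + if (j : ℕ) < 2 then R (β j) else 0 := by
  unfold Pj
  have h1 : ∀ i : Fin (m + 2), ph i (β.coord i (q + β j - z₀)) • R (β i) =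
      ph i (β.coord i (q - z₀)) • R (β i) + if i = j then (if (j : ℕ) < 2 then R (β j) else 0)
        else 0 := by
    intro i
    have e1 : q + β j - z₀ = (q - z₀) + β j := by abel
    rw [e1, map_add]
    by_cases hij : i = j
    · subst hij
      rw [if_pos rfl]
      have e2 : β.coord i (β i) = 1 := by simp
      rw [e2]
      unfold ph
      split_ifs with h
      · rw [add_smul, one_smul]
      · have e3 : 2 * Real.pi * (β.coord i (q - z₀) + 1) =
            2 * Real.pi * β.coord i (q - z₀) + 2 * Real.pi := by ring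
        rw [e3, Real.sin_add_two_pi, add_zero]
    · rw [if_neg hij]
      have e2 : β.coord i (β j) = 0 := by
        rw [Module.Basis.coord_apply, Module.Basis.repr_self, Finsupp.single_apply,
          if_neg (Ne.symm hij)]
      rw [e2, add_zero, add_zero]
  simp only [h1]
  rw [Finset.sum_add_distrib, Finset.sum_ite_eq' Finset.univ j, if_pos (Finset.mem_univ j)]

/-- bounds for the derivatives of maps with a periodic derivative -/
theorem bnd {m : ℕ} (β : Module.Basis (Fin (m + 2)) ℝ V) {F : Type*} [NormedAddCommGroup F]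
    [NormedSpace ℝ F] (G : V × ℝ → F) (hG : ContDiff ℝ ∞ G) (h : Per β (fderiv ℝ G)) (K : ℕ) :
    ∃ D : ℝ, 1 ≤ D ∧ ∀ j, 1 ≤ j → j ≤ K → ∀ p, ‖iteratedFDeriv ℝ j G p‖ ≤ D ^ j := by
  have h1 : ContDiff ℝ ∞ (fderiv ℝ G) := hG.fderiv_right (by simp)
  choose C hC using fun j => h.bounded_iteratedFDeriv h1 j
  have hC0 : ∀ j, 0 ≤ C j := fun j => (norm_nonneg _).trans (hC j 0)
  refine ⟨1 + ∑ j ∈ Finset.range K, C j, ?_, fun j hj hjK p => ?_⟩
  · have := Finset.sum_nonneg fun j (_ : j ∈ Finset.range K) => hC0 j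
    linarith
  obtain ⟨i, rfl⟩ : ∃ i, j = i + 1 := ⟨j - 1, by omega⟩
  rw [← norm_iteratedFDeriv_fderiv]
  have h2 : C i ≤ ∑ j ∈ Finset.range K, C j :=
    Finset.single_le_sum (fun j _ => hC0 j) (Finset.mem_range.2 (by omega))
  have h3 : (1 : ℝ) ≤ 1 + ∑ j ∈ Finset.range K, C j := by linarith [hC0 i]
  calc _ ≤ C i := hC i p
    _ ≤ 1 + ∑ j ∈ Finset.range K, C j := by linarith
    _ ≤ _ := le_self_pow₀ h3 (by omega)

end Pool.Agent.Helper69.ET
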