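import Pool.Agent.Helper69.ET.Core

set_option autoImplicit false

/-!
# Two-dimensional subtori: density and genericity
-/

namespace Pool.Agent.Helper69.ET

open Set Filter Topology Pool.Agent.Helper69.EI
open scoped ContDiff

variable {V : Type*} [NormedAddCommGroup V] [InnerProductSpace ℝ V] {m : ℕ}

/-- the restriction to the plane -/
noncomputable def slice (β : Module.Basis (Fin (m + 2)) ℝ V) (z₀ : V) (F : V × ℝ → ℝ)
    (p : (Fin 2 → ℝ) × ℝ) : ℝ := F (z₀ + io β p.1, p.2)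

theorem slice_smooth (β : Module.Basis (Fin (m + 2)) ℝ V) (z₀ : V) (F : V × ℝ → ℝ)
    {r : WithTop ℕ∞} (hF : ContDiff ℝ r F) : ContDiff ℝ r (slice β z₀ F) :=
  hF.comp ((contDiff_const.add ((io β).contDiff.comp contDiff_fst)).prodMk contDiff_snd)

theorem slice_per (β : Module.Basis (Fin (m + 2)) ℝ V) (z₀ : V) (F : V × ℝ → ℝ)
    (h : Per β F) : Pool.Agent.Helper6K9.ES.Per (m := 1) (slice β z₀ F) := by
  intro p k l
  have h1 := (((h.p1 0).zsmul (k 0)).add_period ((h.p1 1).zsmul (k 1))).add_period (h.p2.zsmul l)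
  have h2 := h1 (z₀ + io β p.1, p.2)
  rw [slice, slice, ← h2]
  congr 1
  refine Prod.ext ?_ ?_
  · simp only [io_apply, Pi.add_apply, add_smul, Prod.fst_add, Prod.smul_mk, smul_zero, add_zero,
      Int.cast_smul_eq_zsmul]
    abel
  · simp

/-- the extension of a function on the subtorus -/
noncomputable def ex (β : Module.Basis (Fin (m + 2)) ℝ V) (z₀ : V) (R : V →L[ℝ] (Fin 2 → ℝ))
    (g : (Fin 2 → ℝ) × ℝ → ℝ) (p : V × ℝ) : ℝ := g (Pj β z₀ R p.1, p.2)

theorem ex_smooth (β : Module.Basis (Fin (m + 2)) ℝ V) (z₀ : V) (R : V →L[ℝ] (Fin 2 → ℝ))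
    (g : (Fin 2 → ℝ) × ℝ → ℝ) (r : ℕ∞) (hg : ContDiff ℝ r g) : ContDiff ℝ r (ex β z₀ R g) :=
  hg.comp ((((Pj_smooth β z₀ R).of_le (by exact_mod_cast le_top)).comp contDiff_fst).prodMk
    contDiff_snd)

theorem ex_per (β : Module.Basis (Fin (m + 2)) ℝ V) (z₀ : V) (R : V →L[ℝ] (Fin 2 → ℝ))
    (h0 : R (β 0) = Pi.single 0 1) (h1 : R (β 1) = Pi.single 1 1)
    (g : (Fin 2 → ℝ) × ℝ → ℝ) (hg : Pool.Agent.Helper6K9.ES.Per (m := 1) g) :
    Per β (ex β z₀ R g) := by
  have key : ∀ (j : Fin 2) (x : Fin 2 → ℝ) (t : ℝ), g (x + Pi.single j 1, t) = g (x, t) := by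
    intro j x t
    have h2 := hg (x, t) (Pi.single j 1) 0
    rw [← h2]
    congr 1
    refine Prod.ext ?_ (by simp)
    funext i
    by_cases hij : i = j
    · subst hij
      simp
    · simp [Pi.single_apply, hij]
  refine ⟨fun i p => ?_, fun p => ?_⟩
  · unfold ex
    simp only
    rw [Pj_per]
    split_ifs with h
    · have hi : i = 0 ∨ i = 1 := by
        rcases i with ⟨i, hi⟩
        have hi' : i = 0 ∨ i = 1 := by
          simp only at h
          omega
        rcases hi' with rfl | rfl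
        · left
          rfl
        · right
          rfl
      rcases hi with rfl | rfl
      · rw [h0, key]
      · rw [h1, key]
    · rw [add_zero]
  · unfold ex
    have h2 := hg (Pj β z₀ R p.1, p.2) 0 1
    rw [← h2]
    congr 1
    refine Prod.ext ?_ (by simp)
    funext i
    simp

theorem ex_fderiv (β : Module.Basis (Fin (m + 2)) ℝ V) (z₀ : V) (R : V →L[ℝ] (Fin 2 → ℝ))
    (g : (Fin 2 → ℝ) × ℝ → ℝ) (hg : Differentiable ℝ g) (q : V) (t : ℝ) (hq : q - z₀ ∈ plane β) :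
    HasFDerivAt (fun q => ex β z₀ R g (q, t))
      ((fderiv ℝ g (R (q - z₀), t)).comp ((ContinuousLinearMap.inl ℝ (Fin 2 → ℝ) ℝ).comp R)) q := by
  have h1 : HasFDerivAt (fun q => (Pj β z₀ R q, t))
      ((ContinuousLinearMap.inl ℝ (Fin 2 → ℝ) ℝ).comp R) q := by
    have h2 := (Pj_deriv β z₀ R q hq).prodMk (hasFDerivAt_const t q)
    refine h2.congr_fderiv ?_
    ext1 u
    simp
  have h3 : HasFDerivAt g (fderiv ℝ g (Pj β z₀ R q, t)) (Pj β z₀ R q, t) :=
    (hg _).hasFDerivAt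
  have h4 := h3.comp q h1
  rw [Pj_plane β z₀ R q hq] at h4
  exact h4

theorem ex_tang (β : Module.Basis (Fin (m + 2)) ℝ V) (z₀ : V) (R : V →L[ℝ] (Fin 2 → ℝ))
    (hR : ∀ u ∈ (plane β)ᗮ, R u = 0)
    (g : (Fin 2 → ℝ) × ℝ → ℝ) (hg : Differentiable ℝ g) : Tang β z₀ (ex β z₀ R g) := by
  intro q t hq u hu
  rw [(ex_fderiv β z₀ R g hg q t hq).fderiv, ContinuousLinearMap.comp_apply,
    ContinuousLinearMap.comp_apply, hR u hu, map_zero, map_zero]

theorem R_io (β : Module.Basis (Fin (m + 2)) ℝ V) (R : V →L[ℝ] (Fin 2 → ℝ))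
    (h0 : R (β 0) = Pi.single 0 1) (h1 : R (β 1) = Pi.single 1 1) (x : Fin 2 → ℝ) :
    R (io β x) = x := by
  rw [io_apply, map_add, map_smul, map_smul, h0, h1]
  funext i
  fin_cases i <;> simp

theorem slice_ex (β : Module.Basis (Fin (m + 2)) ℝ V) (z₀ : V) (R : V →L[ℝ] (Fin 2 → ℝ))
    (h0 : R (β 0) = Pi.single 0 1) (h1 : R (β 1) = Pi.single 1 1)
    (g : (Fin 2 → ℝ) × ℝ → ℝ) : slice β z₀ (ex β z₀ R g) = g := by
  funext p
  unfold slice ex
  simp only
  rw [Pj_plane β z₀ R _ (by rw [add_sub_cancel_left]; exact io_mem β p.1), add_sub_cancel_left,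
    R_io β R h0 h1]

/-- the metric of the plane -/
noncomputable def gm (β : Module.Basis (Fin (m + 2)) ℝ V) : Matrix (Fin 2) (Fin 2) ℝ :=
  Matrix.gram ℝ ![β 0, β 1]

theorem gm_pos (β : Module.Basis (Fin (m + 2)) ℝ V) : (gm β).PosDef := by
  refine Matrix.posDef_gram_of_linearIndependent ?_
  have h : Function.Injective (![0, 1] : Fin 2 → Fin (m + 2)) := by
    intro i j hij
    fin_cases i <;> fin_cases j <;> simp_all
  have h2 := β.linearIndependent.comp _ h
  have h3 : (β ∘ (![0, 1] : Fin 2 → Fin (m + 2))) = ![β 0, β 1] := by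
    funext i
    fin_cases i <;> rfl
  rw [h3] at h2
  exact h2

theorem inner_io (β : Module.Basis (Fin (m + 2)) ℝ V) (R : V →L[ℝ] (Fin 2 → ℝ))
    (hR2 : ∀ u, u - (R u 0 • β 0 + R u 1 • β 1) ∈ (plane β)ᗮ) (v : Fin 2 → ℝ) :
    innerSL ℝ (io β v) = ∑ i : Fin 2, (∑ j, gm β i j * v j) •
      (ContinuousLinearMap.proj (R := ℝ) (φ := fun _ : Fin 2 => ℝ) i).comp R := by
  ext1 u
  have h1 : inner ℝ (io β v) (u - (R u 0 • β 0 + R u 1 • β 1)) = 0 :=
    Submodule.inner_right_of_mem_orthogonal (io_mem β v) (hR2 u)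
  rw [inner_sub_right, sub_eq_zero] at h1
  rw [innerSL_apply_apply, h1, io_apply]
  simp only [inner_add_left, inner_add_right, real_inner_smul_left, real_inner_smul_right,
    add_apply, smul_apply, ContinuousLinearMap.comp_apply,
    ContinuousLinearMap.proj_apply, gm, Matrix.gram_apply, Fin.sum_univ_two, Matrix.cons_val_zero,
    Matrix.cons_val_one, smul_eq_mul]
  rw [real_inner_comm (β 0) (β 1)]
  ring

open Pool.Agent.Helper6K9.ES in
/-- orbits in the subtorus -/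
theorem orbit (β : Module.Basis (Fin (m + 2)) ℝ V) (z₀ : V) (R : V →L[ℝ] (Fin 2 → ℝ))
    (h0 : R (β 0) = Pi.single 0 1) (h1 : R (β 1) = Pi.single 1 1)
    (hR2 : ∀ u, u - (R u 0 • β 0 + R u 1 • β 1) ∈ (plane β)ᗮ)
    (L : V → V → ℝ → ℝ) (hL : ∀ (q v : V) (t : ℝ), q - z₀ ∈ plane β → v ∈ plane β →
      HasFDerivAt (fun v => L q v t) (innerSL ℝ v) v ∧
      HasFDerivAt (fun q => L q v t) (0 : V →L[ℝ] ℝ) q)
    (F : V × ℝ → ℝ) (hF : Differentiable ℝ F) (ht : Tang β z₀ F) (γ : ℝ → Fin (1 + 1) → ℝ)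
    (h : Pool.Agent.Helper6K9.EG.Orb (m := 1) (gm β) (slice β z₀ F) γ) :
    (∀ t, HasDerivAt (fun t => z₀ + io β (γ t)) (io β (deriv γ t)) t) ∧
    ∀ t, HasDerivAt (fun s => fderiv ℝ (fun v => L (z₀ + io β (γ s)) v s +
        F (z₀ + io β (γ s), s)) (io β (deriv γ s)))
      (fderiv ℝ (fun q => L q (io β (deriv γ t)) t + F (q, t)) (z₀ + io β (γ t))) t := by
  have hA := gm_pos β
  have hsym : (gm β).IsSymm := by
    have := hA.isHermitian.eq
    rwa [Matrix.conjTranspose_eq_transpose_of_trivial] at this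
  have hsd : Differentiable ℝ (slice β z₀ F) :=
    hF.comp (((differentiable_const z₀).add ((io β).differentiable.comp differentiable_fst)).prodMk
      differentiable_snd)
  have hpl : ∀ x, z₀ + io β x - z₀ ∈ plane β := fun x => by
    rw [add_sub_cancel_left]
    exact io_mem β x
  refine ⟨fun t => ((io β).hasFDerivAt.comp_hasDerivAt t (h.1 t).hasDerivAt).const_add z₀,
    fun t => ?_⟩
  have e1 : (fun s => fderiv ℝ (fun v => L (z₀ + io β (γ s)) v s +
        F (z₀ + io β (γ s), s)) (io β (deriv γ s))) =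
      fun s => ∑ i : Fin 2, (∑ j, gm β i j * deriv γ s j) •
      (ContinuousLinearMap.proj (R := ℝ) (φ := fun _ : Fin 2 => ℝ) i).comp R := by
    funext s
    rw [← inner_io β R hR2]
    exact ((hL _ _ s (hpl (γ s)) (io_mem β (deriv γ s))).1.add_const _).fderiv
  have h3 : ∀ k : Fin (1 + 1), HasDerivAt (fun s => ∑ j, gm β k j * deriv γ s j)
      (fderiv ℝ (slice β z₀ F) (γ t, t) (Pi.single k 1, 0)) t := by
    intro k
    have h2 := h.2 t k
    rw [dx_lag (gm β) _ hsd] at h2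
    have e1 : (fun s => dv (lag (gm β) (slice β z₀ F)) k (γ s) (deriv γ s) s) =
        fun s => ∑ j, gm β k j * deriv γ s j := by
      funext s
      rw [dv_lag (gm β) hsym]
    rwa [e1] at h2
  rw [e1]
  have h4 : HasDerivAt (fun s => ∑ i : Fin 2, (∑ j, gm β i j * deriv γ s j) •
      (ContinuousLinearMap.proj (R := ℝ) (φ := fun _ : Fin 2 => ℝ) i).comp R)
      (∑ i : Fin 2, (fderiv ℝ (slice β z₀ F) (γ t, t) (Pi.single i 1, 0)) •
      (ContinuousLinearMap.proj (R := ℝ) (φ := fun _ : Fin 2 => ℝ) i).comp R) t :=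
    HasDerivAt.fun_sum fun i _ => by
      have h5 := HasDerivAt.smul_const (F := V →L[ℝ] ℝ) (h3 i)
        ((ContinuousLinearMap.proj (R := ℝ) (φ := fun _ : Fin 2 => ℝ) i).comp R)
      exact h5
  have hq : HasFDerivAt (fun q => F (q, t)) ((fderiv ℝ F (z₀ + io β (γ t), t)).comp
      (ContinuousLinearMap.inl ℝ V ℝ)) (z₀ + io β (γ t)) :=
    (hF _).hasFDerivAt.comp _ ((hasFDerivAt_id (𝕜 := ℝ) _).prodMk (hasFDerivAt_const t _))
  have hsl : HasFDerivAt (slice β z₀ F) ((fderiv ℝ F (z₀ + io β (γ t), t)).comp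
      (((io β).comp (ContinuousLinearMap.fst ℝ (Fin 2 → ℝ) ℝ)).prod
        (ContinuousLinearMap.snd ℝ (Fin 2 → ℝ) ℝ))) (γ t, t) := by
    have h5 : HasFDerivAt (fun p : (Fin 2 → ℝ) × ℝ => (z₀ + io β p.1, p.2))
      (((io β).comp (ContinuousLinearMap.fst ℝ (Fin 2 → ℝ) ℝ)).prod
        (ContinuousLinearMap.snd ℝ (Fin 2 → ℝ) ℝ)) (γ t, t) :=
      (((io β).hasFDerivAt.comp _ hasFDerivAt_fst).const_add z₀).prodMk hasFDerivAt_snd
    exact HasFDerivAt.comp (g := F) (γ t, t) (hF _).hasFDerivAt h5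
  have e2 : fderiv ℝ (fun q => L q (io β (deriv γ t)) t + F (q, t)) (z₀ + io β (γ t)) =
      ∑ i : Fin 2, (fderiv ℝ (slice β z₀ F) (γ t, t) (Pi.single i 1, 0)) •
      (ContinuousLinearMap.proj (R := ℝ) (φ := fun _ : Fin 2 => ℝ) i).comp R := by
    have h6 := ((hL _ _ t (hpl (γ t)) (io_mem β (deriv γ t))).2.add hq).fderiv
    have h7 : fderiv ℝ (fun q => L q (io β (deriv γ t)) t + F (q, t)) (z₀ + io β (γ t)) = _ := h6
    rw [h7, hsl.fderiv]
    ext1 u
    have h8 := ht (z₀ + io β (γ t)) t (hpl (γ t)) _ (hR2 u)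
    rw [hq.fderiv, map_sub, sub_eq_zero] at h8
    rw [add_apply, zero_apply, zero_add, h8, ← io_apply]
    have h9 : R u = R u 0 • Pi.single 0 1 + R u 1 • Pi.single 1 1 := by
      funext i
      fin_cases i <;> simp
    conv_lhs => rw [h9]
    rw [map_add, map_smul, map_smul, map_add, map_smul, map_smul]
    simp only [add_apply, smul_apply, Fin.sum_univ_two, ContinuousLinearMap.comp_apply,
      ContinuousLinearMap.proj_apply, ContinuousLinearMap.inl_apply, ContinuousLinearMap.prod_apply,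
      ContinuousLinearMap.coe_fst', ContinuousLinearMap.coe_snd', smul_eq_mul]
    ring
  rw [e2]
  exact h4

end Pool.Agent.Helper69.ET
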