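import Pool.Agent.Helper69.ET.Den

set_option autoImplicit false

/-!
# Two-dimensional subtori: density and genericity
-/

namespace Pool.Agent.Helper69.ET

open Set Filter Topology Pool.Agent.Helper69.EI
open scoped ContDiff Nat

variable {V : Type*} [NormedAddCommGroup V] [InnerProductSpace ℝ V] {m : ℕ}

theorem per_G (β : Module.Basis (Fin (m + 2)) ℝ V) (z₀ : V) (R : V →L[ℝ] (Fin 2 → ℝ)) :
    Per β (fderiv ℝ fun p : V × ℝ => (Pj β z₀ R p.1, p.2)) := by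
  have key : ∀ (c : V × ℝ) (a : (Fin 2 → ℝ) × ℝ), (∀ p : V × ℝ, ((Pj β z₀ R (p + c).1, (p + c).2) :
      (Fin 2 → ℝ) × ℝ) = (Pj β z₀ R p.1, p.2) + a) →
      Function.Periodic (fderiv ℝ fun p : V × ℝ => (Pj β z₀ R p.1, p.2)) c := by
    intro c a h p
    have h1 := fderiv_comp_add_right (𝕜 := ℝ) (f := fun p : V × ℝ => (Pj β z₀ R p.1, p.2))
      (x := p) c
    rw [← h1]
    have h2 : (fun x : V × ℝ => ((Pj β z₀ R (x + c).1, (x + c).2) : (Fin 2 → ℝ) × ℝ)) =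
        fun x => (Pj β z₀ R x.1, x.2) + a := funext h
    rw [h2, fderiv_add_const]
  refine per_of (fun i => key _ (if (i : ℕ) < 2 then R (β i) else 0, 0) fun p => ?_)
    (key _ (0, 1) fun p => ?_)
  · refine Prod.ext ?_ ?_
    · simp only [Prod.fst_add]
      rw [Pj_per]
    · simp
  · refine Prod.ext ?_ ?_
    · simp
    · simp

open Pool.Agent.Helper6K9.EG in
theorem dense_core (β : Module.Basis (Fin (m + 2)) ℝ V) (z₀ : V) (r : ℕ∞) (hr : 2 ≤ r)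
    (F₀ : V × ℝ → ℝ) (hF₀ : ContDiff ℝ r F₀) (hp : Per β F₀) (ht : Tang β z₀ F₀)
    (K : ℕ) (hK : (K : ℕ∞) ≤ r) (ε : ℝ) (hε : 0 < ε) :
    ∃ F : V × ℝ → ℝ, ContDiff ℝ r F ∧ Per β F ∧ Tang β z₀ F ∧
      (∀ (j : ℕ) (p : V × ℝ), j ≤ K → ‖iteratedFDeriv ℝ j (fun q => F q - F₀ q) p‖ ≤ ε) ∧
      ∃ γ : ℝ → Fin (1 + 1) → ℝ, Orb (m := 1) (gm β) (slice β z₀ F) γ ∧
        Tendsto (fun t => ‖deriv γ t‖) atTop atTop := by
  obtain ⟨R, h0, h1, hR, hR2⟩ := exists_R β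
  have hG : ContDiff ℝ ∞ fun p : V × ℝ => (Pj β z₀ R p.1, p.2) :=
    ((Pj_smooth β z₀ R).comp contDiff_fst).prodMk contDiff_snd
  obtain ⟨D, hD1, hD⟩ := bnd β _ hG (per_G β z₀ R) K
  have hD0 : 0 < D := by linarith
  have hmax : ((max K 2 : ℕ) : ℕ∞) ≤ r := by
    rcases le_total K 2 with h | h
    · rw [max_eq_right h]; exact_mod_cast hr
    · rw [max_eq_left h]; exact hK
  have hpos : (0 : ℝ) < (K ! : ℝ) * D ^ K := by positivity
  have hsl := slice_per β z₀ F₀ hp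
  obtain ⟨f₁, g1, g2, g3, γ, g4, g5⟩ := Pool.Agent.Helper69.EL.main (max K 2) (le_max_right _ _)
    (gm β) (gm_pos β) (slice β z₀ F₀)
    ((slice_smooth β z₀ F₀ hF₀).of_le (by exact_mod_cast hmax)) hsl (ε / ((K ! : ℝ) * D ^ K))
    (div_pos hε hpos)
  obtain ⟨g, hg⟩ : ∃ g : (Fin 2 → ℝ) × ℝ → ℝ, g = fun p => f₁ p - slice β z₀ F₀ p := ⟨_, rfl⟩
  have hgs : ContDiff ℝ r g := by
    rw [hg]
    exact (g1.of_le (by exact_mod_cast le_top)).sub (slice_smooth β z₀ F₀ hF₀)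
  have hgp : Pool.Agent.Helper6K9.ES.Per (m := 1) g := by
    intro p k l
    rw [hg]
    simp only
    rw [g2 p k l, hsl p k l]
  have hr1 : (r : WithTop ℕ∞) ≠ 0 := by
    intro h
    have h2 : (2 : WithTop ℕ∞) ≤ (r : WithTop ℕ∞) := WithTop.coe_le_coe.2 hr
    rw [h] at h2
    exact absurd h2 (by norm_num)
  have hgd : Differentiable ℝ g := hgs.differentiable hr1
  have hexs := ex_smooth β z₀ R g r hgs
  have hexp := ex_per β z₀ R h0 h1 g hgp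
  have hext := ex_tang β z₀ R hR g hgd
  refine ⟨fun p => F₀ p + ex β z₀ R g p, hF₀.add hexs, ⟨fun i p => ?_, fun p => ?_⟩,
    fun q t hq u hu => ?_, fun j p hj => ?_, γ, ?_, g5⟩
  · simp only
    rw [hp.1 i p, hexp.1 i p]
  · simp only
    rw [hp.2 p, hexp.2 p]
  · have hd1 : DifferentiableAt ℝ (fun q => F₀ (q, t)) q :=
      ((hF₀.differentiable hr1).comp (differentiable_id.prodMk (differentiable_const t))) q
    have hd2 : DifferentiableAt ℝ (fun q => ex β z₀ R g (q, t)) q :=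
      ((hexs.differentiable hr1).comp (differentiable_id.prodMk (differentiable_const t))) q
    have e1 : fderiv ℝ (fun q => F₀ (q, t) + ex β z₀ R g (q, t)) q =
      fderiv ℝ (fun q => F₀ (q, t)) q + fderiv ℝ (fun q => ex β z₀ R g (q, t)) q :=
      fderiv_fun_add hd1 hd2
    rw [e1, add_apply, ht q t hq u hu, hext q t hq u hu, add_zero]
  · have e1 : (fun q : V × ℝ => F₀ q + ex β z₀ R g q - F₀ q) =
        g ∘ fun p : V × ℝ => (Pj β z₀ R p.1, p.2) := by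
      funext q
      rw [add_sub_cancel_left]
      rfl
    rw [e1]
    have hjr : ((j : ℕ∞) : WithTop ℕ∞) ≤ (r : WithTop ℕ∞) :=
      WithTop.coe_le_coe.2 ((by exact_mod_cast hj : (j : ℕ∞) ≤ K).trans hK)
    have h2 := norm_iteratedFDeriv_comp_le (𝕜 := ℝ) hgs
      (hG.of_le (by exact_mod_cast le_top) : ContDiff ℝ r _) hjr p (C := ε / ((K ! : ℝ) * D ^ K))
      (D := D) (fun i hi => by
        rw [hg]
        exact g3 i _ (by omega)) (fun i hi hij => hD i hi (hij.trans hj) p)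
    refine h2.trans ?_
    have h3 : (j ! : ℝ) ≤ K ! := by exact_mod_cast Nat.factorial_le hj
    have h4 : D ^ j ≤ D ^ K := pow_le_pow_right₀ hD1 hj
    calc (j ! : ℝ) * (ε / ((K ! : ℝ) * D ^ K)) * D ^ j
        ≤ (K ! : ℝ) * (ε / ((K ! : ℝ) * D ^ K)) * D ^ K := by
          gcongr
      _ = ε := by field_simp
  · have e1 : slice β z₀ (fun p => F₀ p + ex β z₀ R g p) = f₁ := by
      funext p
      have e2 := congrFun (slice_ex β z₀ R h0 h1 g) p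
      have e3 : slice β z₀ (fun p => F₀ p + ex β z₀ R g p) p =
        slice β z₀ F₀ p + slice β z₀ (ex β z₀ R g) p := rfl
      rw [e3, e2, hg]
      ring
    rw [e1]
    exact g4

/-- closeness is inherited by the restrictions -/
theorem close_slice (β : Module.Basis (Fin (m + 2)) ℝ V) (z₀ : V) (δ : ℝ) (hδ : 0 < δ) :
    ∃ δ' : ℝ, 0 < δ' ∧ ∀ H F : V × ℝ → ℝ, ContDiff ℝ 2 H → ContDiff ℝ 2 F →
      (∀ (j : ℕ) (p : V × ℝ), j ≤ 2 → ‖iteratedFDeriv ℝ j (fun q => H q - F q) p‖ ≤ δ') →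
      ∀ (j : ℕ) (p : (Fin 2 → ℝ) × ℝ), j ≤ 2 →
        ‖iteratedFDeriv ℝ j (fun q => slice β z₀ H q - slice β z₀ F q) p‖ ≤ δ := by
  obtain ⟨G, hG⟩ : ∃ G : (Fin 2 → ℝ) × ℝ → V × ℝ, G = fun p => (z₀ + io β p.1, p.2) := ⟨_, rfl⟩
  obtain ⟨G', hG'⟩ : ∃ G' : (Fin 2 → ℝ) × ℝ →L[ℝ] V × ℝ,
    G' = ((io β).comp (ContinuousLinearMap.fst ℝ (Fin 2 → ℝ) ℝ)).prod
        (ContinuousLinearMap.snd ℝ (Fin 2 → ℝ) ℝ) := ⟨_, rfl⟩
  have hGs : ContDiff ℝ 2 G := by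
    rw [hG]
    exact (contDiff_const.add ((io β).contDiff.comp contDiff_fst)).prodMk contDiff_snd
  have hGd : fderiv ℝ G = fun _ => G' := by
    funext p
    rw [hG, hG']
    exact ((((io β).hasFDerivAt.comp _ hasFDerivAt_fst).const_add z₀).prodMk hasFDerivAt_snd).fderiv
  have hD : ∀ i, 1 ≤ i → i ≤ 2 → ∀ p, ‖iteratedFDeriv ℝ i G p‖ ≤ (1 + ‖G'‖) ^ i := by
    intro i hi _ p
    obtain ⟨k, rfl⟩ : ∃ k, i = k + 1 := ⟨i - 1, by omega⟩
    rw [← norm_iteratedFDeriv_fderiv, hGd]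
    rcases Nat.eq_zero_or_pos k with rfl | hk
    · rw [norm_iteratedFDeriv_zero]
      simp only [zero_add, pow_one]
      linarith [norm_nonneg G']
    · rw [iteratedFDeriv_const_of_ne hk.ne']
      simp only [Pi.zero_apply, norm_zero]
      positivity
  refine ⟨δ / (2 * (1 + ‖G'‖) ^ 2), by positivity, fun H F hH hF h j p hj => ?_⟩
  have e1 : (fun q => slice β z₀ H q - slice β z₀ F q) = (fun q => H q - F q) ∘ G := by
    funext q
    rw [hG]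
    rfl
  rw [e1]
  have h2 := norm_iteratedFDeriv_comp_le (𝕜 := ℝ) (hH.sub hF) hGs (by exact_mod_cast hj) p
    (C := δ / (2 * (1 + ‖G'‖) ^ 2)) (D := 1 + ‖G'‖) (fun i hi => h i _ (hi.trans hj))
    (fun i hi hij => hD i hi (hij.trans hj) p)
  refine h2.trans ?_
  have h3 : (j ! : ℝ) ≤ 2 := by
    have : j ! ≤ 2 ! := Nat.factorial_le hj
    exact_mod_cast this
  have h5 : (1 : ℝ) ≤ 1 + ‖G'‖ := by linarith [norm_nonneg G']
  have h4 : (1 + ‖G'‖) ^ j ≤ (1 + ‖G'‖) ^ 2 := pow_le_pow_right₀ h5 hj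
  calc (j ! : ℝ) * (δ / (2 * (1 + ‖G'‖) ^ 2)) * (1 + ‖G'‖) ^ j
      ≤ 2 * (δ / (2 * (1 + ‖G'‖) ^ 2)) * (1 + ‖G'‖) ^ 2 := by
        gcongr
    _ = δ := by field_simp

end Pool.Agent.Helper69.ET
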